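import Pool.Agent.H73.GWT.Stmts
import Pool.Agent.H55.GWP.CMP1

/-! Row CPU of board gwt: the acceptance problem of the machine of stacks of blocks is
computable. -/

set_option autoImplicit false

open Classical

namespace GWT

theorem CPU_curry {S A B : Type} [Primcodable S] [Fintype S] [Primcodable A] [Primcodable B]
    (f : S → A → B) (h : ∀ x, Primrec (f x)) : Primrec₂ f := by
  let e := Fintype.equivFin S
  have h1 : Primrec₂ (fun (i : Fin (Fintype.card S)) (a : A) => f (e.symm i) a) :=
    Primrec.fin_curry₁.2 (fun i => h _)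
  have h2 : Primrec (fun p : S × A =>
      (fun (i : Fin (Fintype.card S)) (a : A) => f (e.symm i) a) (e p.1) p.2) :=
    h1.comp ((Primrec.dom_finite e).comp Primrec.fst) Primrec.snd
  have h3 : Primrec (fun p : S × A => f p.1 p.2) := h2.of_eq (by intro p; simp)
  exact h3.to₂

/-- a function of a parameter and of the first `n` letters is primitive recursive, if it is so for
every fixed list of letters -/
theorem CPU_take2 (S : Type) [Primcodable S] [Fintype S] {A B : Type} [Primcodable A]
    [Primcodable B] (n : ℕ) :
    ∀ g : A → List S → B, (∀ l, Primrec (fun a => g a l)) →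
      Primrec (fun p : A × List S => g p.1 (p.2.take n)) := by
  induction n with
  | zero =>
    intro g hg
    simpa using (hg []).comp Primrec.fst
  | succ n ih =>
    intro g hg
    have h1 : ∀ x : S, Primrec (fun p : A × List S => g p.1 (x :: p.2.take n)) :=
      fun x => ih (fun a l => g a (x :: l)) (fun l => hg (x :: l))
    have h2 : Primrec₂ (fun (x : S) (p : A × List S) => g p.1 (x :: p.2.take n)) :=
      CPU_curry _ h1
    have h3 : Primrec₂ (fun (p : A × List S) (q : S × List S) =>
        g p.1 (q.1 :: q.2.take n)) :=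
      (h2.comp (Primrec.fst.comp Primrec.snd)
        (Primrec.pair (Primrec.fst.comp Primrec.fst) (Primrec.snd.comp Primrec.snd))).to₂
    have h4 := Primrec.list_casesOn (f := fun p : A × List S => p.2)
      (g := fun p : A × List S => g p.1 [])
      (h := fun (p : A × List S) (q : S × List S) =>
        g p.1 (q.1 :: q.2.take n)) Primrec.snd ((hg []).comp Primrec.fst) h3
    refine h4.of_eq ?_
    rintro ⟨a, l⟩
    cases l with
    | nil => rfl
    | cons x l => rfl

theorem CPU_take (S : Type) [Primcodable S] [Fintype S] {B : Type} [Primcodable B] (n : ℕ)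
    (g : List S → B) : Primrec (fun l : List S => g (l.take n)) :=
  (CPU_take2 S (A := Unit) n (fun _ l => g l) (fun _ => Primrec.const _)).comp
    (Primrec.pair (Primrec.const ()) Primrec.id)

theorem CPU_take22 (S : Type) [Primcodable S] [Fintype S] {B : Type} [Primcodable B] (n n' : ℕ)
    (g : List S → List S → B) :
    Primrec (fun p : List S × List S => g (p.1.take n) (p.2.take n')) :=
  CPU_take2 S (A := List S) n' (fun a l => g (a.take n) l)
    (fun l => CPU_take S n (fun a => g a l))

section mach

variable {B : Type} [Primcodable B] (sh : B → Bool) (cmp : B → B → Bool)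

theorem CPU_clm (hs : Primrec sh) (hc : Primrec₂ cmp) :
    Primrec (fun p : (B × List B) × ℕ => clm sh cmp p.1.1 p.1.2 p.2) := by
  have h1 : PrimrecRel (fun (c b : B) => cmp c b = true) :=
    Primrec.eq.comp hc (Primrec.const true)
  have h2 := h1.exists_mem_list
  have h3 : PrimrecPred (fun p : (B × List B) × ℕ =>
      ∃ c ∈ p.1.2.take (p.2 + 1), cmp c p.1.1 = true) :=
    h2.comp (Primrec.list_take.comp (Primrec.succ.comp Primrec.snd)
      (Primrec.snd.comp Primrec.fst)) (Primrec.fst.comp Primrec.fst)
  have h4 : PrimrecPred (fun p : (B × List B) × ℕ => sh p.1.1 = true ∨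
      ∃ c ∈ p.1.2.take (p.2 + 1), cmp c p.1.1 = true) :=
    PrimrecPred.or (Primrec.eq.comp (hs.comp (Primrec.fst.comp Primrec.fst))
      (Primrec.const true)) h3
  refine (Primrec.ite h4 (Primrec.const true) (Primrec.const false)).of_eq ?_
  rintro ⟨⟨b, σ⟩, r⟩
  simp only [clm]
  by_cases h : sh b = true ∨ ∃ c ∈ σ.take (r + 1), cmp c b = true
  · rw [if_pos h]
    rcases h with h | h
    · simp [h]
    · have : (σ.take (r + 1)).any (fun c => cmp c b) = true := List.any_eq_true.2 h
      simp [this]
  · rw [if_neg h]
    push_neg at h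
    obtain ⟨h1, h2⟩ := h
    have e1 : sh b = false := by simpa using h1
    have e2 : (σ.take (r + 1)).any (fun c => cmp c b) = false := by
      rw [List.any_eq_false]
      exact h2
    rw [e1, e2]
    rfl

theorem CPU_stp (hs : Primrec sh) (hc : Primrec₂ cmp) :
    Primrec₂ (fun (b : B) (cfg : List B × ℕ) => stp sh cmp b cfg) := by
  have hcl := CPU_clm sh cmp hs hc
  have hr : Primrec (fun p : B × (List B × ℕ) => List.range (p.2.1.length + 1)) :=
    Primrec.list_range.comp (Primrec.succ.comp
      (Primrec.list_length.comp (Primrec.fst.comp Primrec.snd)))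
  have hb : Primrec (fun q : (B × (List B × ℕ)) × ℕ => q.1.1) := Primrec.fst.comp Primrec.fst
  have hσ : Primrec (fun q : (B × (List B × ℕ)) × ℕ => q.1.2.1) :=
    Primrec.fst.comp (Primrec.snd.comp Primrec.fst)
  have hn : Primrec (fun q : (B × (List B × ℕ)) × ℕ => q.1.2.2) :=
    Primrec.snd.comp (Primrec.snd.comp Primrec.fst)
  have hi : PrimrecPred (fun q : (B × (List B × ℕ)) × ℕ =>
      clm sh cmp q.1.1 q.1.2.1 q.2 = true) :=
    Primrec.eq.comp (hcl.comp (Primrec.pair (Primrec.pair hb hσ) Primrec.snd))
      (Primrec.const true)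
  have hq : Primrec (fun q : (B × (List B × ℕ)) × ℕ =>
      ((q.1.1 :: q.1.2.1.drop q.2,
        q.1.2.2 + if clm sh cmp q.1.1 q.1.2.1 q.2 = true then 1 else 0) : List B × ℕ)) := by
    refine Primrec.pair ?_ ?_
    · exact Primrec.list_cons.comp hb (Primrec.list_drop.comp Primrec.snd hσ)
    · exact Primrec.nat_add.comp hn (Primrec.ite hi (Primrec.const 1) (Primrec.const 0))
  have h := Primrec.list_map hr hq.to₂
  have h2 : Primrec (fun p : B × (List B × ℕ) => stp sh cmp p.1 p.2) := by
    refine h.of_eq ?_
    rintro ⟨b, σ, c⟩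
    rfl
  exact h2.to₂

theorem CPU_runs (hs : Primrec sh) (hc : Primrec₂ cmp) : Primrec (runs sh cmp) := by
  have h := Primrec.list_foldl (α := List B) (β := B) (σ := List (List B × ℕ))
    (f := fun l => l) (g := fun _ => [([], 0)])
    (h := fun _ q => q.1.flatMap (stp sh cmp q.2)) Primrec.id (Primrec.const _)
    ((Primrec.list_flatMap (Primrec.fst.comp Primrec.snd)
      ((CPU_stp sh cmp hs hc).comp (Primrec.snd.comp (Primrec.snd.comp Primrec.fst))
        Primrec.snd).to₂).to₂)
  refine h.of_eq ?_
  intro l
  rfl

end mach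

theorem CPU_blocks (S : Type) [Primcodable S] (L : ℕ) : Primrec (blocks (S := S) L) := by
  have hr : Primrec (fun w : List S => List.range (w.length / L)) :=
    Primrec.list_range.comp (Primrec.nat_div.comp Primrec.list_length (Primrec.const L))
  have hq : Primrec (fun q : List S × ℕ => (q.1.drop (L * q.2)).take L) :=
    Primrec.list_take.comp (Primrec.const L)
      (Primrec.list_drop.comp (Primrec.nat_mul.comp (Primrec.const L) Primrec.snd) Primrec.fst)
  exact (Primrec.list_map hr hq.to₂).of_eq (fun w => rfl)

theorem CPU : CPUStmt := by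
  intro k L R g1 g2
  have hs : Primrec (fun b : List (Fin k × Bool) => g1 (b.take L)) :=
    CPU_take (Fin k × Bool) L g1
  have hc : Primrec₂ (fun c b : List (Fin k × Bool) => g2 (c.take L) (b.take L)) :=
    (CPU_take22 (Fin k × Bool) L L g2).to₂
  have hr := CPU_runs _ _ hs hc
  have hb := CPU_blocks (Fin k × Bool) L
  have hrel : PrimrecRel (fun (cfg : List (List (Fin k × Bool)) × ℕ)
      (w : List (Fin k × Bool)) => (blocks L w).length ≤ R * (cfg.2 + 1)) :=
    Primrec.nat_le.comp (Primrec.list_length.comp (hb.comp Primrec.snd))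
      (Primrec.nat_mul.comp (Primrec.const R)
        (Primrec.succ.comp (Primrec.snd.comp Primrec.fst)))
  have h := hrel.exists_mem_list
  have hp : PrimrecPred (fun w : List (Fin k × Bool) =>
      ∃ cfg ∈ runs (fun b => g1 (b.take L)) (fun c b => g2 (c.take L) (b.take L)) (blocks L w),
        (blocks L w).length ≤ R * (cfg.2 + 1)) :=
    h.comp (hr.comp hb) Primrec.id
  exact GWP.FM.CMP1_computable hp

end GWT
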